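import Pool.Agent.U455.JA

/-!
# `ζ(3) / π³` and the monomials in `ζ(3)` and `π`: blocks of digits and finite automata, at all scales

For any real number `t ≠ 0`, for instance `t = ζ(3)`, consider monomials `t^a π^b` with integer exponents
such that no two of the vectors `(a, b)` are proportional; for instance `ζ(3) / π³`, `ζ(3) / π²`, `ζ(3)² / π³`, …

Blocks: the first `N` digits of a number in base `b` are covered by `s` blocks (one digit may be omitted between
two blocks), and every block `d_(u+1), …, d_v` satisfies an algebraic relation of its own, of degree at most `r`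
in `D(X) = d_(u+1) X + ⋯ + d_v X^(v-u)` with coefficients of degree at most `k` in `X`. Automata: an
automaton with `Q` states reads the digits one after the other and predicts each next digit from its state.
The digits of a rational number form one block with `r = 1` and bounded `k`, and are predicted by an
automaton with finitely many errors.

For any two of the numbers `x`, `y`, for all bases `β`, `β'`, all lengths and all `k`, `k'`, `s`, `s'`

`min (N log β, N' log β') ≤ A^(s+s') ((k+1) log β + (k'+1) log β')`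

if the first `N` digits of `x` in base `β` and the first `N'` digits of `y` in base `β'` are covered by `s`
and `s'` such blocks; the same with `E + E' + 2` in place of `s + s'` for two automata with `k` and `k'`
states which make `E` and `E'` errors. Hence at every large scale `Z` the digits of all but at most one of
finitely many of the numbers are rough: in no base `b` are the first `N` digits, `N log b ≥ Z`, covered by
at most `c log Z` blocks with `(k + 1) log b ≤ Z^θ` (`θ < 1`), or predicted by an automaton with `k`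
states, `(k + 1) log b ≤ Z^θ`, with at most `c log Z` errors.

The proof: multiplied by `b^u` a number turns a relation for a block of its digits, from the
`(u+1)`-st to the `v`-th, into an integer polynomial of bounded degree which is small at the number. Two
such polynomials contradict the joint measure of the two numbers (from the transcendence measure of `π`,
starting library `Pool.Agent.R473.JC`); then induction on the number of blocks
(`Pool.Agent.U455.JB.blocks2`).

-/

set_option autoImplicit false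

namespace Pool.Agent.Results.MP_e47f08_nt.MonomialBlocks

open Polynomial
/-- `ζ(3) = ∑ 1 / (n + 1)^3` -/
noncomputable def zeta3 : ℝ := ∑' n : ℕ, 1 / ((n : ℝ) + 1) ^ 3

/-- the `i`-th digit of `x` after the point in base `b` -/
noncomputable def digit (b : ℕ) (x : ℝ) (i : ℕ) : ℤ := ⌊x * (b : ℝ) ^ i⌋ % (b : ℤ)

/-- the polynomial `d_(u+1) X + ⋯ + d_v X^(v-u)`, where `d_i` is the `i`-th digit of `x` -/
noncomputable def blockPoly (b : ℕ) (x : ℝ) (u v : ℕ) : ℚ[X] :=
  ∑ l ∈ Finset.Icc 1 (v - u), C (digit b x (u + l) : ℚ) * X ^ l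

/-- there is a nonzero polynomial `P(X, Y)` over `ℚ` of degree `≤ r` in `Y` and `≤ k` in `X` such
that `P(X, D(X))` is divisible by `X^(v-u+1)`, where `D(X) = d_(u+1) X + ⋯ + d_v X^(v-u)` -/
def AlgRelation (b : ℕ) (x : ℝ) (r u v k : ℕ) : Prop :=
  ∃ P : ℚ[X][X], P ≠ 0 ∧ P.natDegree ≤ r ∧ (∀ j, (P.coeff j).natDegree ≤ k) ∧
    X ^ (v - u + 1) ∣ P.eval (blockPoly b x u v)

/-- The first `N` digits of `x` in base `b` are covered by `s` blocks, from the `(u_i + 1)`-st to the
`v_i`-th digit, `i < s`, where `u_0 = 0`, `u_s = N` and `u_(i+1) ≤ v_i + 1` (one digit may be omitted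
between two blocks), and every block satisfies an algebraic relation of degree at most `r` with
coefficients of degree at most `k` (each block one of its own). -/
def Blocks (b : ℕ) (x : ℝ) (r k s N : ℕ) : Prop :=
  ∃ u v : ℕ → ℕ, u 0 = 0 ∧ u s = N ∧
    ∀ i < s, u i ≤ v i ∧ u (i + 1) ≤ v i + 1 ∧ AlgRelation b x r (u i) (v i) k

/-- the state of the automaton with transitions `δ` and initial state `q₀` after it has read
`d 1, …, d n` -/
def run {Q : ℕ} (δ : Fin Q → ℤ → Fin Q) (q₀ : Fin Q) (d : ℕ → ℤ) : ℕ → Fin Q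
  | 0 => q₀
  | n + 1 => δ (run δ q₀ d n) (d (n + 1))

/-- the number of errors of the automaton on `d 1, …, d N`: the number of `n < N` such that the
prediction `out` of the state after `d 1, …, d n` is not `d (n + 1)` -/
def errors {Q : ℕ} (δ : Fin Q → ℤ → Fin Q) (q₀ : Fin Q) (out : Fin Q → ℤ) (d : ℕ → ℤ) (N : ℕ) : ℕ :=
  ((Finset.range N).filter fun n => out (run δ q₀ d n) ≠ d (n + 1)).card

/-- the joint lower bound for blocks with relations of degree at most `r` -/
def BlockBound (A : ℝ) (r : ℕ) (x y : ℝ) : Prop :=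
  ∀ β β' : ℕ, 2 ≤ β → 2 ≤ β' → ∀ k k' s s' N N' : ℕ, Blocks β x r k s N → Blocks β' y r k' s' N' →
    min (N * Real.log β) (N' * Real.log β') ≤
      A ^ (s + s') * ((k + 1) * Real.log β + (k' + 1) * Real.log β')

/-- the joint lower bound for automata -/
def AutomatonBound (A : ℝ) (x y : ℝ) : Prop :=
  ∀ β β' : ℕ, 2 ≤ β → 2 ≤ β' → ∀ (Q Q' : ℕ) (δ : Fin Q → ℤ → Fin Q) (q₀ : Fin Q)
    (out : Fin Q → ℤ) (δ' : Fin Q' → ℤ → Fin Q') (q₀' : Fin Q') (out' : Fin Q' → ℤ) (N N' : ℕ),
    min (N * Real.log β) (N' * Real.log β') ≤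
      A ^ (errors δ q₀ out (digit β x) N + errors δ' q₀' out' (digit β' y) N' + 2) *
        ((Q + 1) * Real.log β + (Q' + 1) * Real.log β')

/-- The digits of `x` are simple at the scale `Z`, in the sense of blocks: for some base `b`, the
first `N` digits, `N log b ≥ Z`, are covered by `s ≤ c log Z` blocks with algebraic relations of degree
at most `r` with coefficients of degree at most `k`, where `(k + 1) log b ≤ Z^θ`. -/
def Simple (r : ℕ) (θ c Z x : ℝ) : Prop :=
  ∃ b N k s : ℕ, 2 ≤ b ∧ Z ≤ N * Real.log b ∧ (k + 1) * Real.log b ≤ Z ^ θ ∧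
    (s : ℝ) ≤ c * Real.log Z ∧ Blocks b x r k s N

/-- The digits of `x` are predictable at the scale `Z`: for some base `b` an automaton with `Q` states,
`(Q + 1) log b ≤ Z^θ`, makes at most `c log Z` errors on the first `N` digits, `N log b ≥ Z`. -/
def Predictable (θ c Z x : ℝ) : Prop :=
  ∃ b N Q : ℕ, 2 ≤ b ∧ Z ≤ N * Real.log b ∧ (Q + 1) * Real.log b ≤ Z ^ θ ∧
    ∃ (δ : Fin Q → ℤ → Fin Q) (q₀ : Fin Q) (out : Fin Q → ℤ),
      (errors δ q₀ out (digit b x) N : ℝ) ≤ c * Real.log Z

/-- The three statements for the digits of finitely many numbers `x i`: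
for every `r` the joint lower bound `BlockBound` for any two of them, with one constant; the joint
lower bound `AutomatonBound`; and for every `r` and `θ < 1` there is `c > 0` such that at every large
scale the digits of at most one of the numbers are simple, and those of at most one of the numbers
are predictable. -/
def JointlyComplex {n : ℕ} (x : Fin n → ℝ) : Prop :=
  (∀ r : ℕ, ∃ A : ℝ, 1 ≤ A ∧ ∀ i j, i ≠ j → BlockBound A r (x i) (x j)) ∧
  (∃ A : ℝ, 1 ≤ A ∧ ∀ i j, i ≠ j → AutomatonBound A (x i) (x j)) ∧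
  (∀ (r : ℕ) (θ : ℝ), θ < 1 → ∃ c Z₀ : ℝ, 0 < c ∧ ∀ Z : ℝ, Z₀ ≤ Z →
    (∀ i j, Simple r θ c Z (x i) → Simple r θ c Z (x j) → i = j) ∧
    (∀ i j, Predictable θ c Z (x i) → Predictable θ c Z (x j) → i = j))

theorem brel_of_alg {b : ℕ} {x : ℝ} {r u v k : ℕ} (h : AlgRelation b x r u v k) :
    Pool.Agent.U455.JB.BRel b x r u v k := by
  obtain ⟨P, hP0, hPr, hPk, hX⟩ := h
  refine ⟨fun j => P.coeff j, ?_, fun j => hPk j, ?_⟩
  · intro h0
    apply hP0
    ext1 j
    by_cases hj : j < r + 1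
    · have := congrFun h0 ⟨j, hj⟩
      simpa using this
    · rw [coeff_eq_zero_of_natDegree_lt (by omega), coeff_zero]
  · rw [eval_eq_sum_range' (show P.natDegree < r + 1 by omega), Finset.sum_range] at hX
    exact hX

theorem blk {b : ℕ} {x : ℝ} {r k s N : ℕ} (h : Blocks b x r k s N) :
    Pool.Agent.U455.JF.Blk b x r k s N := by
  obtain ⟨u, v, hu, hs, h⟩ := h
  exact ⟨u, v, hu, hs, fun i hi => ⟨(h i hi).1, (h i hi).2.1, brel_of_alg (h i hi).2.2⟩⟩

theorem run_eq {Q : ℕ} (δ : Fin Q → ℤ → Fin Q) (q₀ : Fin Q) (d : ℕ → ℤ) (n : ℕ) :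
    run δ q₀ d n = Pool.Agent.R473.FP.run δ q₀ d n := by
  induction n with
  | zero => rfl
  | succ n ih =>
    change δ (run δ q₀ d n) (d (n + 1)) = δ (Pool.Agent.R473.FP.run δ q₀ d n) (d (n + 1))
    rw [ih]

theorem errors_eq {Q : ℕ} (δ : Fin Q → ℤ → Fin Q) (q₀ : Fin Q) (out : Fin Q → ℤ) (d : ℕ → ℤ)
    (N : ℕ) : errors δ q₀ out d N = Pool.Agent.R473.FP.errors δ q₀ out d N := by
  unfold errors Pool.Agent.R473.FP.errors
  simp only [run_eq]

theorem jointlyComplex {n : ℕ} (x : Fin n → ℝ)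
    (h : ∀ i j, i ≠ j → Pool.Agent.R356.JointR (x i) (x j)) : JointlyComplex x := by
  refine ⟨fun r => ?_, ?_, fun r θ hθ => ?_⟩
  · obtain ⟨A, hA, H⟩ := Pool.Agent.U455.JF.blocks_fam x h r
    exact ⟨A, hA, fun i j hij β β' hβ hβ' k k' s s' N N' h1 h2 =>
      H i j hij β β' hβ hβ' k k' s s' N N' (blk h1) (blk h2)⟩
  · obtain ⟨A, hA, H⟩ := Pool.Agent.U455.JF.fs_fam x h
    refine ⟨A, hA, fun i j hij β β' hβ hβ' Q Q' δ q₀ out δ' q₀' out' N N' => ?_⟩
    rw [errors_eq, errors_eq]
    exact H i j hij β β' hβ hβ' Q Q' δ q₀ out δ' q₀' out' N N'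
  · obtain ⟨c, Z₀, hc, -, H⟩ := Pool.Agent.U455.JF.large_fam x h r θ hθ
    refine ⟨c, Z₀, hc, fun Z hZ => ⟨fun i j hi hj => (H Z hZ).1 i j ?_ ?_,
      fun i j hi hj => (H Z hZ).2 i j ?_ ?_⟩⟩
    · obtain ⟨b, N, k, s, h1, h2, h3, h4, h5⟩ := hi
      exact ⟨b, N, k, s, h1, h2, h3, h4, blk h5⟩
    · obtain ⟨b, N, k, s, h1, h2, h3, h4, h5⟩ := hj
      exact ⟨b, N, k, s, h1, h2, h3, h4, blk h5⟩
    · obtain ⟨b, N, Q, h1, h2, h3, δ, q₀, out, h4⟩ := hi
      rw [errors_eq] at h4
      exact ⟨b, N, Q, h1, h2, h3, δ, q₀, out, h4⟩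
    · obtain ⟨b, N, Q, h1, h2, h3, δ, q₀, out, h4⟩ := hj
      rw [errors_eq] at h4
      exact ⟨b, N, Q, h1, h2, h3, δ, q₀, out, h4⟩

/-- **The digits of `ζ(3) / π³` and of the monomials in `ζ(3)` and `π`.**

(1) For all real `t ≠ 0` the monomials `t^(a i) π^(b i)` are jointly complex if the integer vectors
`(a i, b i)` are pairwise linearly independent.

(2) `ζ(3) ≠ 0`, and for instance `ζ(3) / π³`, `ζ(3) / π²`, `ζ(3)² / π³`, `ζ(3)` are jointly complex. -/
theorem result :
    (∀ t : ℝ, t ≠ 0 → ∀ (n : ℕ) (a b : Fin n → ℤ),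
      (∀ i j, i ≠ j → a i * b j - b i * a j ≠ 0) → JointlyComplex fun i => t ^ a i * Real.pi ^ b i) ∧
    zeta3 ≠ 0 ∧
    JointlyComplex ![zeta3 / Real.pi ^ 3, zeta3 / Real.pi ^ 2, zeta3 ^ 2 / Real.pi ^ 3, zeta3] := by
  have h3 : ∀ t : ℝ, t ≠ 0 → ∀ (n : ℕ) (a b : Fin n → ℤ),
      (∀ i j, i ≠ j → a i * b j - b i * a j ≠ 0) → JointlyComplex fun i => t ^ a i * Real.pi ^ b i := by
    intro t ht n a b h
    exact jointlyComplex _ fun i j hij => Pool.Agent.U455.JA.joint_mono Real.pi
      Pool.Agent.TH456.TM.measT_pi t ht (a i) (b i) (a j) (b j) (h i j hij)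
  have hz3pos : 0 < zeta3 := by
    unfold zeta3
    have hs : Summable fun n : ℕ => 1 / ((n : ℝ) + 1) ^ 3 := by
      have h := (summable_nat_add_iff 1).2 (Real.summable_one_div_nat_pow.2 (by norm_num : 1 < 3))
      refine h.congr fun n => ?_
      push_cast
      rfl
    have h0 : ∀ n : ℕ, 0 ≤ 1 / ((n : ℝ) + 1) ^ 3 := fun n => by positivity
    have h1 := hs.le_tsum 0 fun n _ => h0 n
    refine lt_of_lt_of_le ?_ h1
    norm_num
  refine ⟨h3, hz3pos.ne', ?_⟩
  have h := h3 zeta3 hz3pos.ne' 4 ![1, 1, 2, 1] ![-3, -2, -3, 0] (by decide)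
  have e : (fun i => zeta3 ^ (![1, 1, 2, 1] : Fin 4 → ℤ) i * Real.pi ^ (![-3, -2, -3, 0] : Fin 4 → ℤ) i) =
      ![zeta3 / Real.pi ^ 3, zeta3 / Real.pi ^ 2, zeta3 ^ 2 / Real.pi ^ 3, zeta3] := by
    funext i
    fin_cases i
    · show zeta3 ^ (1 : ℤ) * Real.pi ^ (-3 : ℤ) = zeta3 / Real.pi ^ 3
      rw [zpow_one, div_eq_mul_inv]; congr 1
    · show zeta3 ^ (1 : ℤ) * Real.pi ^ (-2 : ℤ) = zeta3 / Real.pi ^ 2
      rw [zpow_one, div_eq_mul_inv]; congr 1
    · show zeta3 ^ (2 : ℤ) * Real.pi ^ (-3 : ℤ) = zeta3 ^ 2 / Real.pi ^ 3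
      rw [div_eq_mul_inv]; congr 1
    · show zeta3 ^ (1 : ℤ) * Real.pi ^ (0 : ℤ) = zeta3
      rw [zpow_one, zpow_zero, mul_one]
  rwa [e] at h

end Pool.Agent.Results.MP_e47f08_nt.MonomialBlocks
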