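import Pool.Agent.U351.SC.Pi

/-!
# `ζ(3)/π³` among the monomials in `ζ(3)` and `π` and the numbers `ζ(3) + b π^k`

For a real number `t ≠ 0`, for instance `t = ζ(3)`, we consider the numbers `r t^j π^k` (`r ≠ 0`
rational, `j`, `k` integers, not both zero) and the nonzero numbers `t + b π^k` (`b ≠ 0` rational,
`k ≠ 0` an integer). Two of them are called independent unless both are of the first kind with
proportional exponents `(j, k)`, or both are the same number of the second kind. For `t = ζ(3)` the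
number `ζ(3)/π³` is one of them.

(1) Two independent numbers have a joint measure: `max (|P(u)|, |Q(v)|) ≥ C H^(-κ)`.

(2) The scale dichotomy for the approximations of bounded degree holds for finitely many pairwise
independent numbers (see `Scales`).

(3) If `ζ(3)/π³` is algebraic, then all numbers `r ζ(3)^j π^k` with `k ≠ -3j` and all nonzero numbers
`ζ(3) + b π^k` have a transcendence measure.

Proof.  If `t` is eliminated, `π` is a zero of a polynomial whose coefficients are polynomials in `u`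
and `v` and which is not identically zero (for `u = r t^j π^k` and `v = t + b π^l` it is
`r (v - b x^l)^j x^k - u`, which is not zero at the zeros of `v - b x^l`), and `π` has a transcendence
measure (`Pool.Agent.TH456.TM.measT_pi`, `Pool.Agent.R356.jointR_of_rel`). The engine of the scale
dichotomy is `Pool.Agent.N743.dichotomy_alg`.
-/

set_option autoImplicit false

namespace Pool.Agent.Results.MP_e47f08_nt.MonomialsAndShifts

open Polynomial
open Pool.Agent.N743 (Dichotomy)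
open Pool.Agent.R356 (JointR)

/-- `ζ(3)` -/
noncomputable def zeta3 : ℝ := ∑' k : ℕ, 1 / ((k : ℝ) + 1) ^ 3

/-- the numbers `r t^j π^k` (index `inl (r, j, k)`) and `t + b π^k` (index `inr (b, k)`) -/
noncomputable def num (t : ℝ) : (ℚ × ℤ × ℤ) ⊕ (ℚ × ℤ) → ℝ
  | .inl (r, j, k) => r * t ^ j * Real.pi ^ k
  | .inr (b, k) => t + b * Real.pi ^ k

/-- the index is admissible: `r ≠ 0` and `(j, k) ≠ (0, 0)`; `b ≠ 0`, `k ≠ 0` and `t + b π^k ≠ 0` -/
def Adm (t : ℝ) : (ℚ × ℤ × ℤ) ⊕ (ℚ × ℤ) → Prop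
  | .inl (r, j, k) => r ≠ 0 ∧ (j ≠ 0 ∨ k ≠ 0)
  | .inr (b, k) => b ≠ 0 ∧ k ≠ 0 ∧ t + b * Real.pi ^ k ≠ 0

/-- the indices are independent: not proportional exponents `(j, k)` for two monomials, different
indices for two numbers of the second kind, no condition for two numbers of different kinds -/
def Indep : (ℚ × ℤ × ℤ) ⊕ (ℚ × ℤ) → (ℚ × ℤ × ℤ) ⊕ (ℚ × ℤ) → Prop
  | .inl (_, j, k), .inl (_, j', k') => j * k' ≠ j' * k
  | .inr a, .inr b => a ≠ b
  | _, _ => True

/-- the joint measure of `u` and `v` -/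
def JointMeasure (u v : ℝ) : Prop :=
  ∀ D : ℕ, ∃ κ C : ℝ, 0 < κ ∧ 0 < C ∧ ∀ P Q : ℤ[X], P ≠ 0 → Q ≠ 0 → P.natDegree ≤ D →
    Q.natDegree ≤ D → ∀ H : ℝ, (∀ k, |((P.coeff k : ℤ) : ℝ)| ≤ H) →
    (∀ k, |((Q.coeff k : ℤ) : ℝ)| ≤ H) → C * H ^ (-κ) ≤ max |aeval u P| |aeval v Q|

/-- `v` is transcendental with a measure: for every `D` there are `κ, C > 0` such that
`|Q(v)| ≥ C H^(-κ)` for all nonzero integer polynomials `Q` of degree at most `D` with coefficients
at most `H` -/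
def Measure (v : ℝ) : Prop :=
  ∀ D : ℕ, ∃ κ C : ℝ, 0 < κ ∧ 0 < C ∧ ∀ Q : ℤ[X], Q ≠ 0 → Q.natDegree ≤ D →
    ∀ H : ℝ, (∀ k, |((Q.coeff k : ℤ) : ℝ)| ≤ H) → C * H ^ (-κ) ≤ |aeval v Q|

/-- `u` is algebraic of degree at most `d` -/
def AlgDeg (d : ℕ) (u : ℝ) : Prop := ∃ P : ℤ[X], P ≠ 0 ∧ P.natDegree ≤ d ∧ aeval u P = 0

/-- some nonzero integer polynomial of degree at most `d` with coefficients at most `X ^ θ` in
absolute value has at `u` a value at most `1 / X` in absolute value -/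
def AlgNear (d : ℕ) (θ X u : ℝ) : Prop :=
  ∃ P : ℤ[X], P ≠ 0 ∧ P.natDegree ≤ d ∧ (∀ k, |((P.coeff k : ℤ) : ℝ)| ≤ X ^ θ) ∧
    |aeval u P| ≤ X⁻¹

/-- For every `d` and every `m > 1` there is `θ₀ > 0` such that for all positive `θ ≤ θ₀` the scale
dichotomy holds for the numbers `x i` (good: algebraic of degree at most `d`; near at the scale `X`:
see `AlgNear`). -/
def Scales {ι : Type} (x : ι → ℝ) : Prop :=
  ∀ (d : ℕ) (m : ℝ), 1 < m → ∃ θ₀ : ℝ, 0 < θ₀ ∧ ∀ θ : ℝ, 0 < θ → θ ≤ θ₀ →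
    Dichotomy (fun i => AlgDeg d (x i)) (fun X i => AlgNear d θ X (x i)) m

lemma scales_of_joint {ι : Type} [Finite ι] (x : ι → ℝ)
    (h : ∀ i j, i ≠ j → JointR (x i) (x j)) : Scales x :=
  fun d m hm => Pool.Agent.N743.dichotomy_alg x h d m hm

/-- independent numbers have a joint measure -/
theorem joint (t : ℝ) (ht : t ≠ 0) (a b : (ℚ × ℤ × ℤ) ⊕ (ℚ × ℤ)) (ha : Adm t a) (hb : Adm t b)
    (hab : Indep a b) : JointR (num t a) (num t b) := by
  rcases a with ⟨r, j, k⟩ | ⟨c, l⟩ <;> rcases b with ⟨r', j', k'⟩ | ⟨c', l'⟩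
  · exact Pool.Agent.U351.SC.joint_mono t ht r r' ha.1 hb.1 j k j' k' hab
  · exact Pool.Agent.U351.SC.joint_mixed t ht r ha.1 j k ha.2 c' hb.1 l' hb.2.1 hb.2.2
  · exact (Pool.Agent.U351.SC.joint_mixed t ht r' hb.1 j' k' hb.2 c ha.1 l ha.2.1 ha.2.2).symm
  · refine Pool.Agent.U351.SC.joint_aff t c c' ha.1 l l' ha.2.1 ?_
    by_contra hcon
    push Not at hcon
    exact hab (Prod.ext hcon.1 hcon.2)

/-- a nonzero integer polynomial has a coefficient of absolute value at least one -/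
lemma one_le_height {P : ℤ[X]} (hP : P ≠ 0) {H : ℝ} (h : ∀ k, |((P.coeff k : ℤ) : ℝ)| ≤ H) :
    1 ≤ H := by
  have h1 : P.coeff P.natDegree ≠ 0 := by
    rw [Polynomial.coeff_natDegree]
    exact Polynomial.leadingCoeff_ne_zero.2 hP
  have h2 : (1 : ℤ) ≤ |P.coeff P.natDegree| := Int.one_le_abs h1
  have h3 : (1 : ℝ) ≤ |((P.coeff P.natDegree : ℤ) : ℝ)| := by exact_mod_cast h2
  exact h3.trans (h _)

/-- if `u` is algebraic then a joint measure of `u` and `v` is a measure of `v` -/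
lemma measure_of_joint {u v : ℝ} (h : JointMeasure u v) (hu : ∃ d, AlgDeg d u) : Measure v := by
  intro D
  obtain ⟨d, P, hP, hPd, hPu⟩ := hu
  obtain ⟨κ, C, hκ, hC, hm⟩ := h (max D d)
  obtain ⟨B, hB⟩ : ∃ B : ℝ, ∀ k, |((P.coeff k : ℤ) : ℝ)| ≤ B := by
    refine ⟨∑ k ∈ Finset.range (P.natDegree + 1), |((P.coeff k : ℤ) : ℝ)|, fun k => ?_⟩
    by_cases hk : k ∈ Finset.range (P.natDegree + 1)
    · exact Finset.single_le_sum (f := fun k => |((P.coeff k : ℤ) : ℝ)|)
        (fun i _ => abs_nonneg _) hk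
    · have : P.coeff k = 0 := by
        apply Polynomial.coeff_eq_zero_of_natDegree_lt
        rw [Finset.mem_range] at hk
        omega
      rw [this]
      simp only [Int.cast_zero, abs_zero]
      exact Finset.sum_nonneg fun i _ => abs_nonneg _
  have hB1 : 1 ≤ B := one_le_height hP hB
  refine ⟨κ, C * B ^ (-κ), hκ, by positivity, fun Q hQ hQD H hH => ?_⟩
  have hH1 : 1 ≤ H := one_le_height hQ hH
  have h1 := hm P Q hP hQ (hPd.trans (le_max_right _ _)) (hQD.trans (le_max_left _ _)) (B * H)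
    (fun k => (hB k).trans (le_mul_of_one_le_right (by linarith) hH1))
    (fun k => (hH k).trans (le_mul_of_one_le_left (by linarith) hB1))
  rw [hPu, abs_zero, max_eq_right (abs_nonneg _), Real.mul_rpow (by linarith) (by linarith)] at h1
  linarith [h1, mul_assoc C (B ^ (-κ)) (H ^ (-κ))]

lemma zeta3_pos : 0 < zeta3 := by
  have hs : Summable fun k : ℕ => 1 / ((k : ℝ) + 1) ^ 3 := by
    have h := (summable_nat_add_iff 1).2 (Real.summable_one_div_nat_pow.2 (by norm_num : 1 < 3))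
    simpa using h
  exact hs.tsum_pos (fun k => by positivity) 0 (by norm_num)

/-- **`ζ(3)/π³`, the monomials in `ζ(3)` and `π`, and the numbers `ζ(3) + b π^k`.** -/
theorem result :
    -- (1) joint measures
    (∀ t : ℝ, t ≠ 0 → ∀ a b : (ℚ × ℤ × ℤ) ⊕ (ℚ × ℤ), Adm t a → Adm t b → Indep a b →
      JointMeasure (num t a) (num t b)) ∧
    -- (2) the scale dichotomy
    (∀ t : ℝ, t ≠ 0 → ∀ (n : ℕ) (a : Fin n → (ℚ × ℤ × ℤ) ⊕ (ℚ × ℤ)), (∀ i, Adm t (a i)) →
      (∀ i j, i ≠ j → Indep (a i) (a j)) → Scales fun i => num t (a i)) ∧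
    -- (3) `ζ(3)/π³`
    (0 < zeta3 ∧ Adm zeta3 (.inl (1, 1, -3)) ∧
      num zeta3 (.inl (1, 1, -3)) = zeta3 / Real.pi ^ 3) ∧
    ((∃ d, AlgDeg d (zeta3 / Real.pi ^ 3)) →
      (∀ (r : ℚ) (j k : ℤ), r ≠ 0 → k ≠ -3 * j → Measure (r * zeta3 ^ j * Real.pi ^ k)) ∧
      ∀ (b : ℚ) (k : ℤ), b ≠ 0 → k ≠ 0 → zeta3 + b * Real.pi ^ k ≠ 0 →
        Measure (zeta3 + b * Real.pi ^ k)) := by
  have h3 := zeta3_pos
  have hA : Adm zeta3 (.inl (1, 1, -3)) := ⟨one_ne_zero, Or.inl one_ne_zero⟩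
  have hN : num zeta3 (.inl (1, 1, -3)) = zeta3 / Real.pi ^ 3 := by
    show ((1 : ℚ) : ℝ) * zeta3 ^ (1 : ℤ) * Real.pi ^ (-3 : ℤ) = zeta3 / Real.pi ^ 3
    rw [zpow_one, zpow_neg, Rat.cast_one, one_mul, div_eq_mul_inv]
    norm_cast
  refine ⟨fun t ht a b ha hb hab => joint t ht a b ha hb hab,
    fun t ht n a ha hab => scales_of_joint _ fun i j hij => joint t ht _ _ (ha i) (ha j) (hab i j hij),
    ⟨h3, hA, hN⟩, fun halg => ⟨fun r j k hr hk => ?_, fun b k hb hk h0 => ?_⟩⟩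
  · have h1 : JointMeasure (num zeta3 (.inl (1, 1, -3))) (num zeta3 (.inl (r, j, k))) := by
      refine joint zeta3 h3.ne' _ _ hA ⟨hr, ?_⟩ ?_
      · by_contra hcon
        push Not at hcon
        exact hk (by rw [hcon.1, hcon.2]; norm_num)
      · show (1 : ℤ) * k ≠ j * (-3)
        intro h
        exact hk (by linarith)
    rw [hN] at h1
    exact measure_of_joint h1 halg
  · have h1 : JointMeasure (num zeta3 (.inl (1, 1, -3))) (num zeta3 (.inr (b, k))) :=
      joint zeta3 h3.ne' _ _ hA ⟨hb, hk, h0⟩ trivial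
    rw [hN] at h1
    exact measure_of_joint h1 halg

end Pool.Agent.Results.MP_e47f08_nt.MonomialsAndShifts
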