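import Mathlib
import Pool.Agent.Q163.LE.Tr
import Pool.Agent.U664.PL.Pen

set_option autoImplicit false

/-!
# `ζ(3)/π³` and Catalan's constant over fields of simultaneously Liouville numbers

Call a field `F` of real numbers simultaneously Liouville if for any finitely many elements
`x_1, …, x_m` of `F` and any `w` there are arbitrarily large `q` with `‖q x_i‖ < q ^ (-w)` for all
`i`. Besides `ℚ` such fields are, for instance,

* for a sequence `T_n → ∞` the field of all real numbers `x` which for one `A` and for all `E` have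
  rational approximations of height at most `exp (A T_n)` with an error at most `exp (-E T_n)` for
  all large `n`;
* for an infinite set `S` of integers the field generated by all real numbers `x` whose first `N`
  digits in some base have a partition into `o (log N)` phrases (`N ∈ S`), each of which is a digit
  or a copy of a block which begins earlier.

Let `G` be Catalan's constant and `ε = 1` or `ε = -1`. Over every simultaneously Liouville field `F`

* for all `x₀, x₁ ∈ F`, not both zero, one of the numbers `8 x₀ G + x₁ π²`,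
  `x₀ (π³ + 12 ε ζ(3)) + 18 x₁ ζ(3)` of the pencil is not in `F`;
* at least two of the three numbers `ζ(3)/π³`, `8 G - π⁵/(18 ζ(3)) + (2/3) π²`,
  `8 G - π⁵/(18 ζ(3)) - (2/3) π²` are not in `F`.

For `F = ℚ` this is in the starting files.
-/

namespace Pool.Agent.Results.MP_e47f08_nt.PencilOverLiouvilleFields

open Filter Topology Pool.Agent.Q163.LE

/-- `ζ(3) = ∑ 1 / (j+1)^3` -/
noncomputable def zeta3 : ℝ := ∑' j : ℕ, 1 / ((j : ℝ) + 1) ^ 3

/-- Catalan's constant `G = ∑ (-1)^j / (2j+1)^2` -/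
noncomputable def catalan : ℝ := ∑' j : ℕ, (-1) ^ j / (2 * (j : ℝ) + 1) ^ 2

/-- the field generated by all real numbers `x` such that, for some base `b`,
`phrases b x N / log N` tends to `0` as `N` tends to infinity in `S` -/
noncomputable def field (S : Set ℕ) : Subfield ℝ := Subfield.closure {x : ℝ | ∃ b : ℕ, 2 ≤ b ∧
  Tendsto (fun N : ℕ => (phrases b x N : ℝ) / Real.log N) (atTop ⊓ 𝓟 S) (𝓝 0)}

theorem catalan_eq : catalan = Pool.Agent.W34.GB.GC := rfl

theorem zeta3_eq : zeta3 = Pool.Agent.W34.GB.Z3 := rfl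

theorem zeta3_pos : 0 < zeta3 := by
  rw [zeta3_eq]
  exact Pool.Agent.TH957.PB.Z3_pos

/-- **`ζ(3)/π³` over simultaneously Liouville fields.** -/
theorem result :
    -- examples of such fields
    (∀ (T : ℕ → ℝ) (hT : Tendsto T atTop atTop), SimLiouville (ApField T hT)) ∧
    (∀ S : Set ℕ, S.Infinite → SimLiouville (field S)) ∧
    ∀ F : Subfield ℝ, SimLiouville F → ∀ ε : ℝ, ε = 1 ∨ ε = -1 →
      -- (1) the pencil
      (∀ x₀ x₁ : ℝ, x₀ ∈ F → x₁ ∈ F → (x₀ ≠ 0 ∨ x₁ ≠ 0) →
        8 * x₀ * catalan + x₁ * Real.pi ^ 2 ∉ F ∨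
          x₀ * (Real.pi ^ 3 + 12 * ε * zeta3) + 18 * x₁ * zeta3 ∉ F) ∧
      -- (2) `r = ζ(3)/π³` and `8 G - π² (1/r + 12 ε)/18`
      (zeta3 / Real.pi ^ 3 ∉ F ∨
        8 * catalan - Real.pi ^ 5 / (18 * zeta3) + ε * (2 / 3) * Real.pi ^ 2 ∉ F) ∧
      -- (3) the two companion numbers
      (8 * catalan - Real.pi ^ 5 / (18 * zeta3) + (2 / 3) * Real.pi ^ 2 ∉ F ∨
        8 * catalan - Real.pi ^ 5 / (18 * zeta3) - (2 / 3) * Real.pi ^ 2 ∉ F) := by
  refine ⟨sim_apField, sim_lz, fun F hF ε hε => ?_⟩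
  have hpi : Transcendental F Real.pi :=
    transc_of_measT hF _ Pool.Agent.TH456.TM.measT_pi
  have hpi2 : Real.pi ^ 2 ∉ F := by
    intro h
    apply hpi
    have h1 : IsAlgebraic F (Real.pi ^ 2) :=
      isAlgebraic_algebraMap (⟨Real.pi ^ 2, h⟩ : F)
    exact h1.of_pow (by norm_num)
  have key : ∀ δ : ℝ, δ = 1 ∨ δ = -1 → ∀ w ∈ F, 8 * catalan + w * Real.pi ^ 2 ∈ F →
      Real.pi ^ 3 + 12 * δ * zeta3 + 18 * w * zeta3 ∈ F → False := by
    intro δ hδ w hw hA hB
    exact Pool.Agent.U664.PL.pencil_F hF δ hδ w hw hA hB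
  have hz := zeta3_pos
  have hp := Real.pi_pos
  have hnum : ∀ n : ℕ, (n : ℝ) ∈ F := fun n => natCast_mem F n
  have hεF : ε ∈ F := by
    rcases hε with rfl | rfl
    · exact one_mem F
    · exact neg_mem (one_mem F)
  refine ⟨?_, ?_, ?_⟩
  · intro x₀ x₁ h0 h1 hne
    by_contra hcon
    push Not at hcon
    obtain ⟨hA, hB⟩ := hcon
    by_cases hx : x₀ = 0
    · have hx1 : x₁ ≠ 0 := by
        rcases hne with h | h
        · exact absurd hx h
        · exact h
      apply hpi2
      have e : Real.pi ^ 2 = x₁⁻¹ * (8 * x₀ * catalan + x₁ * Real.pi ^ 2) := by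
        rw [hx]
        field_simp
        ring
      rw [e]
      exact mul_mem (inv_mem h1) hA
    · refine key ε hε (x₀⁻¹ * x₁) (mul_mem (inv_mem h0) h1) ?_ ?_
      · have e : 8 * catalan + x₀⁻¹ * x₁ * Real.pi ^ 2 =
            x₀⁻¹ * (8 * x₀ * catalan + x₁ * Real.pi ^ 2) := by
          field_simp
        rw [e]
        exact mul_mem (inv_mem h0) hA
      · have e : Real.pi ^ 3 + 12 * ε * zeta3 + 18 * (x₀⁻¹ * x₁) * zeta3 =
            x₀⁻¹ * (x₀ * (Real.pi ^ 3 + 12 * ε * zeta3) + 18 * x₁ * zeta3) := by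
          field_simp
        rw [e]
        exact mul_mem (inv_mem h0) hB
  · by_contra hcon
    push Not at hcon
    obtain ⟨hr, hA⟩ := hcon
    have h18 : (18 : ℝ)⁻¹ ∈ F := inv_mem (by exact_mod_cast hnum 18)
    have h12 : (12 : ℝ) ∈ F := by exact_mod_cast hnum 12
    have hδ : -ε = 1 ∨ -ε = -1 := by
      rcases hε with rfl | rfl
      · right; rfl
      · left; norm_num
    refine key (-ε) hδ (-((zeta3 / Real.pi ^ 3)⁻¹ + 12 * (-ε)) * 18⁻¹)
      (mul_mem (neg_mem (add_mem (inv_mem hr) (mul_mem h12 (neg_mem hεF)))) h18) ?_ ?_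
    · have e : 8 * catalan + -((zeta3 / Real.pi ^ 3)⁻¹ + 12 * (-ε)) * 18⁻¹ * Real.pi ^ 2 =
          8 * catalan - Real.pi ^ 5 / (18 * zeta3) + ε * (2 / 3) * Real.pi ^ 2 := by
        field_simp
        ring
      rw [e]
      exact hA
    · have e : Real.pi ^ 3 + 12 * -ε * zeta3 +
          18 * (-((zeta3 / Real.pi ^ 3)⁻¹ + 12 * (-ε)) * 18⁻¹) * zeta3 = 0 := by
        field_simp
        ring
      rw [e]
      exact zero_mem F
  · by_contra hcon
    push Not at hcon
    obtain ⟨h1, h2⟩ := hcon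
    apply hpi2
    have e : Real.pi ^ 2 = ((8 * catalan - Real.pi ^ 5 / (18 * zeta3) + (2 / 3) * Real.pi ^ 2) -
        (8 * catalan - Real.pi ^ 5 / (18 * zeta3) - (2 / 3) * Real.pi ^ 2)) *
        ((3 : ℝ) * (4 : ℝ)⁻¹) := by ring
    rw [e]
    exact mul_mem (sub_mem h1 h2) (mul_mem (by exact_mod_cast hnum 3)
      (inv_mem (by exact_mod_cast hnum 4)))

end Pool.Agent.Results.MP_e47f08_nt.PencilOverLiouvilleFields
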