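import Pool.Agent.U456.IZ.Gen
import Pool.Agent.U456.IZ.Graph
import Pool.Agent.U456.IZ.Bot

/-!
# Pairs of tails of the integrals for two zeta values

For an integer `k ≥ 2`, `ω = exp(2πi/k)` and `x ≥ 0` let
`R_k(x) = (-1)^k / k! ∫ (∑_j ω^j log t_j)^k exp(-∑_j t_j) dt`, the integral being over the points of the
octant `(0, ∞)^k` with `max t_j ≥ x`. This number is real and `R_k(0) = ζ(k)`, the integral over the
octant.

Call a field `F` of real numbers simultaneously Liouville if for any finitely many elements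
`x_1, …, x_m` of `F` and any `w` there are arbitrarily large `q` with `‖q x_i‖ < q ^ (-w)` for all
`i`. The field `ℚ` is one, and there are uncountable ones, see the statement.

For every such field `F` and all integers `m ≠ n` which are at least `2` it is proved that there are
at most two pairs `(x, y)` of rational numbers `x, y ≥ 0` such that for some nonzero integers `a` and `b`
(which may depend on the pair) the number `R_m(x)^a R_n(y)^b` is nonzero and algebraic over `F(e)`.

For `m = 3`, `n = 2` the question whether `ζ(3) / π^3` is rational is about the pair `(0, 0)`, as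
`R_3(0)^2 R_2(0)^(-3) = 216 (ζ(3) / π^3)^2`.

The proof uses the formula of `Pool.Agent.R352.Q` for `ζ(k) - R_k(x)` as a polynomial in values of
E-functions, the measure of algebraic independence for these values
(`Pool.Agent.N743.SS.measM_EE`, a quantitative form of Shidlovskii's theorem), the file
`Pool/Agent/U456/IZ/Liou.lean` (a polynomial measure of algebraic independence gives algebraic
independence over every simultaneously Liouville field) and the matroid of algebraic independence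
over `F`: finite sets `X`, `Y` of rational numbers `≥ 0` such that the numbers `R_m(x)`, `x ∈ X`, and
`R_n(y)`, `y ∈ Y`, are algebraic over a field generated by `e` and `b` further elements satisfy
`|X| + |Y| ≤ b + 2`. Three pairs as above would form a graph with three edges on `|X| + |Y|` vertices
without cycles, so that `b ≤ |X| + |Y| - 3`.
-/

set_option autoImplicit false

namespace Pool.Agent.Results.MP_e47f08_nt.TwoPairsOfTails

open Filter Topology MeasureTheory Pool.Agent.Q163.LE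

/-- `(∑_j ω^j log t_j)^k exp(-∑_j t_j)`, `ω = exp(2πi/k)` -/
noncomputable def integrand (k : ℕ) (t : Fin k → ℝ) : ℂ :=
  (∑ j : Fin k, Complex.exp (2 * Real.pi * Complex.I / k) ^ (j : ℕ) * (Real.log (t j) : ℂ)) ^ k *
    ((Real.exp (-∑ j, t j) : ℝ) : ℂ)

/-- the points of the octant with a coordinate at least `x` -/
def rest (k : ℕ) (x : ℝ) : Set (Fin k → ℝ) := {t | (∀ j, 0 < t j) ∧ ∃ j, x ≤ t j}

/-- `R_k(x)`, as a complex number -/
noncomputable def tail (k : ℕ) (x : ℝ) : ℂ :=
  (-1) ^ k / k.factorial * ∫ t in rest k x, integrand k t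

/-- `R_k(x)`, as a real number -/
noncomputable def R (k : ℕ) (x : ℝ) : ℝ := (tail k x).re

/-- the field generated by all real numbers `x` such that, for some base `b`,
`phrases b x N / log N` tends to `0` as `N` tends to infinity in `S` -/
noncomputable def field (S : Set ℕ) : Subfield ℝ := Subfield.closure {x : ℝ | ∃ b : ℕ, 2 ≤ b ∧
  Tendsto (fun N : ℕ => (phrases b x N : ℝ) / Real.log N) (atTop ⊓ 𝓟 S) (𝓝 0)}

/-- `z` is algebraic over `F(e)`, equivalently over the ring `F[e]` -/
def AlgebraicOverFE (F : Subfield ℝ) (z : ℝ) : Prop :=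
  IsAlgebraic (Algebra.adjoin F ({Real.exp 1} : Set ℝ)) z

/-- `R_m(x)^a R_n(y)^b` is nonzero and algebraic over `F(e)` for some nonzero integers `a, b` -/
def Related (F : Subfield ℝ) (m n : ℕ) (x y : ℚ) : Prop :=
  ∃ a b : ℤ, a ≠ 0 ∧ b ≠ 0 ∧ R m x ^ a * R n y ^ b ≠ 0 ∧ AlgebraicOverFE F (R m x ^ a * R n y ^ b)

/-- **At most two pairs of rationals `(x, y)`, for any two indices.** -/
theorem result :
    -- examples of simultaneously Liouville fields, `⊥` is the field of rational numbers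
    SimLiouville (⊥ : Subfield ℝ) ∧
    (∀ (T : ℕ → ℝ) (hT : Tendsto T atTop atTop), SimLiouville (ApField T hT)) ∧
    (∀ S : Set ℕ, S.Infinite → SimLiouville (field S)) ∧
    -- the numbers `R_k(x)`
    (∀ k : ℕ, 2 ≤ k → (∀ x : ℝ, 0 ≤ x → tail k x = (R k x : ℂ)) ∧
      R k 0 = ∑' n : ℕ, 1 / ((n : ℝ) + 1) ^ k) ∧
    -- the pair `(0, 0)` for `m = 3`, `n = 2`
    R 3 0 ^ (2 : ℤ) * R 2 0 ^ (-3 : ℤ) =
      216 * ((∑' n : ℕ, 1 / ((n : ℝ) + 1) ^ 3) / Real.pi ^ 3) ^ 2 ∧
    -- at most two pairs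
    ∀ F : Subfield ℝ, SimLiouville F → ∀ m n : ℕ, 2 ≤ m → 2 ≤ n → m ≠ n →
      {p : ℚ × ℚ | 0 ≤ p.1 ∧ 0 ≤ p.2 ∧ Related F m n p.1 p.2}.encard ≤ 2 := by
  have hR : ∀ k : ℕ, 2 ≤ k → ∀ x : ℚ, 0 ≤ x → R k (x : ℝ) = Pool.Agent.U456.IZ.Tl k x := by
    intro k hk x hx
    rcases hx.eq_or_lt with h0 | h0
    · rw [← h0, Rat.cast_zero, Pool.Agent.U456.IZ.Tl, if_pos rfl]
      exact Pool.Agent.U456.IZ.Rg_zero hk
    · rw [Pool.Agent.U456.IZ.Tl, if_neg h0.ne']
      exact Pool.Agent.U456.IZ.Rg_pos hk (by exact_mod_cast h0)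
  have hz : ∀ k : ℕ, 2 ≤ k → R k 0 = ∑' n : ℕ, 1 / ((n : ℝ) + 1) ^ k := fun k hk =>
    Pool.Agent.U456.IZ.Rg_zero hk
  refine ⟨Pool.Agent.U456.IZ.sim_bot, sim_apField, sim_lz,
    fun k hk => ⟨fun x hx => Pool.Agent.U456.IZ.tailk_real hk hx, hz k hk⟩, ?_,
    fun F hF m n hm hn hmn => ?_⟩
  · rw [← hz 3 (by norm_num)]
    have h2 : R 2 0 = Real.pi ^ 2 / 6 := by
      rw [hz 2 le_rfl]
      have h := (hasSum_nat_add_iff' 1).2 hasSum_zeta_two
      have h1 := h.tsum_eq
      simp only [Nat.cast_add, Nat.cast_one, Finset.range_one, Finset.sum_singleton,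
        CharP.cast_eq_zero, ne_eq, OfNat.ofNat_ne_zero, not_false_eq_true, zero_pow, div_zero,
        sub_zero] at h1
      exact h1
    rw [h2, zpow_neg]
    have hpi := Real.pi_ne_zero
    have e1 : (R 3 0 : ℝ) ^ (2 : ℤ) = R 3 0 ^ 2 := by norm_cast
    have e2 : (Real.pi ^ 2 / 6 : ℝ) ^ (3 : ℤ) = (Real.pi ^ 2 / 6) ^ 3 := by norm_cast
    rw [e1, e2]
    field_simp
    norm_num
  · refine le_trans (Set.encard_le_encard ?_) (Pool.Agent.U456.IZ.two_pairs hF hm hn hmn)
    rintro ⟨x, y⟩ ⟨hx, hy, a, b, ha, hb, hne, h⟩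
    refine ⟨hx, hy, ?_⟩
    have hx' : 0 ≤ x := hx
    have hy' : 0 ≤ y := hy
    rw [hR m hm x hx', hR n hn y hy'] at hne h
    exact Pool.Agent.U456.IZ.lnk_of_prod ha hb hne (Pool.Agent.U456.IZ.mem_clE.2 h)

end Pool.Agent.Results.MP_e47f08_nt.TwoPairsOfTails
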